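import Mathlib
import Pool.Agent.Q167.VC.Stm

/-! # Project VC, JOB CLO -/

set_option autoImplicit false

open Finset Filter Topology

namespace Pool.Agent.Q225.VC

open Pool.Agent.Q167.VC

theorem po_ne (x : ℂ) (n : ℕ) (hg : ∀ i : ℕ, 1 ≤ i → i ≤ 2 * n + 1 → x ^ (2 * i) ≠ 1) (m : ℕ)
    (hm : m ≤ 2 * n + 1) : po (x ^ 2) m ≠ 0 := by
  unfold po
  rw [prod_ne_zero_iff]
  intro i hi h0
  rw [mem_range] at hi
  apply hg (i + 1) (by omega) (by omega)
  rw [pow_mul]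
  exact (sub_eq_zero.1 h0).symm

theorem po_succ (q : ℂ) (m : ℕ) : po q (m + 1) = po q m * (1 - q ^ (m + 1)) := by
  unfold po
  rw [prod_range_succ]

theorem gen_clo (h : S_gen) (x : ℂ) (hx : x ≠ 0) (m n : ℕ)
    (hg : ∀ i : ℕ, 1 ≤ i → i ≤ 2 * n + 1 → x ^ (2 * i) ≠ 1) :
    x * Bf x (m + 1) (m + 2) n - (1 + x ^ (2 * n + 2)) * Bf x (m + 1) (m + 1) n
    + x ^ (2 * n + 1) * Bf x (m + 1) m n = 0 := by
  rw [h x hx n hg, h x hx n hg, h x hx n hg, mul_sum, mul_sum, mul_sum, ← sum_sub_distrib,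
    ← sum_add_distrib]
  set y := x⁻¹ with hy
  have hxy : x * y = 1 := mul_inv_cancel₀ hx
  set v : ℕ → ℂ := fun k => po (x ^ 2) n / (po (x ^ 2) (n - k) * po (x ^ 2) (n + k + 1)) with hv
  set c : ℕ → ℂ := fun k => (-1) ^ k * x ^ ((2 * (m + 1) + 1) * (k * (k + 1))) with hc
  set G : ℕ → ℂ := fun k => -(c k * v k * y ^ ((m + 1) * (2 * k + 1)) * y ^ (2 * k) *
    (1 - x ^ (2 * k)) * (1 - x ^ (2 * (n + k + 1)))) with hG
  set Z : ℕ → ℂ := fun k => c k * v k * x ^ ((m + 1) * (2 * k + 1)) *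
    (1 - x ^ (2 * (k + 1))) * (1 - x ^ (2 * (n - k))) with hZ
  have key : ∀ k ∈ range (n + 1),
      x * ((-1) ^ k * x ^ ((2 * (m + 1) + 1) * (k * (k + 1))) * (x ^ ((m + 2) * (2 * k + 1)) - y ^ ((m + 2) * (2 * k + 1))) *
          (po (x ^ 2) n / (po (x ^ 2) (n - k) * po (x ^ 2) (n + k + 1)))) -
        (1 + x ^ (2 * n + 2)) * ((-1) ^ k * x ^ ((2 * (m + 1) + 1) * (k * (k + 1))) *
          (x ^ ((m + 1) * (2 * k + 1)) - y ^ ((m + 1) * (2 * k + 1))) *
          (po (x ^ 2) n / (po (x ^ 2) (n - k) * po (x ^ 2) (n + k + 1)))) +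
        x ^ (2 * n + 1) * ((-1) ^ k * x ^ ((2 * (m + 1) + 1) * (k * (k + 1))) * (x ^ (m * (2 * k + 1)) - y ^ (m * (2 * k + 1))) *
          (po (x ^ 2) n / (po (x ^ 2) (n - k) * po (x ^ 2) (n + k + 1)))) = G k - Z k := by
    intro k hk
    rw [mem_range] at hk
    obtain ⟨r, rfl⟩ : ∃ r, n = k + r := ⟨n - k, by omega⟩
    have e1 : c k = (-1) ^ k * x ^ ((2 * (m + 1) + 1) * (k * (k + 1))) := rfl
    have e2 : v k = po (x ^ 2) (k + r) / (po (x ^ 2) (k + r - k) * po (x ^ 2) (k + r + k + 1)) := rfl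
    have e3 : G k = -(c k * v k * y ^ ((m + 1) * (2 * k + 1)) * y ^ (2 * k) *
      (1 - x ^ (2 * k)) * (1 - x ^ (2 * (k + r + k + 1)))) := rfl
    have e4 : Z k = c k * v k * x ^ ((m + 1) * (2 * k + 1)) *
      (1 - x ^ (2 * (k + 1))) * (1 - x ^ (2 * (k + r - k))) := rfl
    rw [e3, e4, ← e1, ← e2]
    rw [show k + r - k = r by omega]
    generalize c k = C
    generalize v k = V
    have a1 : x ^ ((m + 2) * (2 * k + 1)) = x ^ (m * (2 * k + 1)) * (x ^ (2 * k) * x) ^ 2 := by ring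
    have a2 : x ^ ((m + 1) * (2 * k + 1)) = x ^ (m * (2 * k + 1)) * (x ^ (2 * k) * x) := by ring
    have b1 : y ^ ((m + 2) * (2 * k + 1)) = y ^ (m * (2 * k + 1)) * (y ^ (2 * k) * y) ^ 2 := by ring
    have b2 : y ^ ((m + 1) * (2 * k + 1)) = y ^ (m * (2 * k + 1)) * (y ^ (2 * k) * y) := by ring
    have d1 : x ^ (2 * (k + r) + 2) = x ^ (2 * k) * x ^ (2 * r) * x ^ 2 := by ring
    have d2 : x ^ (2 * (k + r) + 1) = x ^ (2 * k) * x ^ (2 * r) * x := by ring
    have d3 : x ^ (2 * (k + 1)) = x ^ (2 * k) * x ^ 2 := by ring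
    have d4 : x ^ (2 * (k + r + k + 1)) = (x ^ (2 * k)) ^ 2 * x ^ (2 * r) * x ^ 2 := by ring
    have hXY : x ^ (2 * k) * y ^ (2 * k) = 1 := by rw [← mul_pow, hxy, one_pow]
    rw [a1, a2, b1, b2, d1, d2, d3, d4]
    generalize x ^ (2 * k) = X at *
    generalize y ^ (2 * k) = Y at *
    generalize x ^ (2 * r) = R at *
    generalize x ^ (m * (2 * k + 1)) = A at *
    generalize y ^ (m * (2 * k + 1)) = B at *
    linear_combination (C * V * B) * ((-y * Y ^ 2 + X * R * x) * hxy +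
      (-Y * y - X * Y * R * x ^ 2 * y + X * R * x * x * y * (X * Y + 1)) * hXY)
  rw [sum_congr rfl key, sum_sub_distrib, sum_range_succ' G, sum_range_succ Z]
  have g0 : G 0 = 0 := by
    simp [hG]
  have zn : Z n = 0 := by
    simp [hZ]
  rw [g0, zn, add_zero, add_zero, ← sum_sub_distrib]
  apply sum_eq_zero
  intro k hk
  rw [mem_range] at hk
  obtain ⟨r, rfl⟩ : ∃ r, n = k + 1 + r := ⟨n - (k + 1), by omega⟩
  have hpo := po_ne x (k + 1 + r) hg
  have h1 : po (x ^ 2) (r + 1) = po (x ^ 2) r * (1 - x ^ (2 * (r + 1))) := by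
    rw [po_succ, ← pow_mul]
  have h2 : po (x ^ 2) (2 * k + r + 3) = po (x ^ 2) (2 * k + r + 2) * (1 - x ^ (2 * (2 * k + r + 3))) := by
    rw [show 2 * k + r + 3 = (2 * k + r + 2) + 1 by ring, po_succ, ← pow_mul]
  have n1 := hpo (r + 1) (by omega)
  have n2 := hpo (2 * k + r + 3) (by omega)
  rw [h1] at n1
  rw [h2] at n2
  have n3 := left_ne_zero_of_mul n1
  have n4 := right_ne_zero_of_mul n1
  have n5 := left_ne_zero_of_mul n2
  have n6 := right_ne_zero_of_mul n2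
  have v1 : v (k + 1) * (1 - x ^ (2 * (2 * k + r + 3))) =
      po (x ^ 2) (k + 1 + r) / (po (x ^ 2) r * po (x ^ 2) (2 * k + r + 2)) := by
    have : v (k + 1) = po (x ^ 2) (k + 1 + r) / (po (x ^ 2) r * (po (x ^ 2) (2 * k + r + 2) * (1 - x ^ (2 * (2 * k + r + 3))))) := by
      rw [← h2]
      simp only [hv]
      rw [show k + 1 + r - (k + 1) = r by omega, show k + 1 + r + (k + 1) + 1 = 2 * k + r + 3 by ring]
    rw [this]
    field_simp
  have v2 : v k * (1 - x ^ (2 * (r + 1))) =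
      po (x ^ 2) (k + 1 + r) / (po (x ^ 2) r * po (x ^ 2) (2 * k + r + 2)) := by
    have : v k = po (x ^ 2) (k + 1 + r) / ((po (x ^ 2) r * (1 - x ^ (2 * (r + 1)))) * po (x ^ 2) (2 * k + r + 2)) := by
      rw [← h1]
      simp only [hv]
      rw [show k + 1 + r - k = r + 1 by omega, show k + 1 + r + k + 1 = 2 * k + r + 2 by ring]
    rw [this]
    field_simp
  have c1 : c (k + 1) * y ^ ((m + 1) * (2 * (k + 1) + 1)) * y ^ (2 * (k + 1)) = -(c k * x ^ ((m + 1) * (2 * k + 1))) := by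
    simp only [hc]
    have t1 : x ^ ((2 * (m + 1) + 1) * ((k + 1) * (k + 1 + 1))) =
        x ^ ((2 * (m + 1) + 1) * (k * (k + 1))) * x ^ ((m + 1) * (2 * k + 1)) *
        (x ^ ((m + 1) * (2 * (k + 1) + 1)) * x ^ (2 * (k + 1))) := by
      rw [← pow_add, ← pow_add, ← pow_add]
      congr 1
      ring
    have t2 : x ^ ((m + 1) * (2 * (k + 1) + 1)) * y ^ ((m + 1) * (2 * (k + 1) + 1)) = 1 := by
      rw [← mul_pow, hxy, one_pow]
    have t3 : x ^ (2 * (k + 1)) * y ^ (2 * (k + 1)) = 1 := by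
      rw [← mul_pow, hxy, one_pow]
    rw [t1, pow_succ]
    generalize x ^ ((m + 1) * (2 * (k + 1) + 1)) = a at *
    generalize x ^ (2 * (k + 1)) = b at *
    generalize y ^ ((m + 1) * (2 * (k + 1) + 1)) = a' at *
    generalize y ^ (2 * (k + 1)) = b' at *
    generalize x ^ ((2 * (m + 1) + 1) * (k * (k + 1))) = u at *
    generalize x ^ ((m + 1) * (2 * k + 1)) = w at *
    linear_combination (-(-1) ^ k * u * w * b * b') * t2 + (-(-1) ^ k * u * w) * t3
  have g1 : G (k + 1) = -((c (k + 1) * y ^ ((m + 1) * (2 * (k + 1) + 1)) * y ^ (2 * (k + 1))) *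
      (v (k + 1) * (1 - x ^ (2 * (2 * k + r + 3)))) * (1 - x ^ (2 * (k + 1)))) := by
    simp only [hG]
    rw [show k + 1 + r + (k + 1) + 1 = 2 * k + r + 3 by ring]
    ring
  have z1 : Z k = (c k * x ^ ((m + 1) * (2 * k + 1))) * (v k * (1 - x ^ (2 * (r + 1)))) * (1 - x ^ (2 * (k + 1))) := by
    simp only [hZ]
    rw [show k + 1 + r - k = r + 1 by omega]
    ring
  rw [g1, z1, v1, v2, c1]
  ring

theorem cont_qb : ∀ n k : ℕ, Continuous fun q : ℂ => qb q n k := by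
  intro n
  induction n with
  | zero =>
    intro k
    cases k with
    | zero => simp only [qb]; exact continuous_const
    | succ k => simp only [qb]; exact continuous_const
  | succ n ih =>
    intro k
    cases k with
    | zero => simp only [qb]; exact continuous_const
    | succ k =>
      simp only [qb]
      exact (ih k).add ((continuous_pow _).mul (ih (k + 1)))

theorem cont_cf : ∀ p n : ℕ, Continuous fun q : ℂ => cf q p n := by
  intro p
  induction p with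
  | zero =>
    intro n
    simp only [cf]
    exact continuous_const
  | succ p ih =>
    intro n
    simp only [cf]
    exact continuous_finsetSum _ fun k _ => ((continuous_pow _).mul (cont_qb n k)).mul (ih k)

theorem cont_Bf (p : ℕ) (x : ℂ) (hx : x ≠ 0) (j : ℕ) :
    (∀ n, ContinuousAt (fun x => Bf x p j n) x) ∧ (∀ n, ContinuousAt (fun x => Bf x p (j + 1) n) x) := by
  induction j with
  | zero =>
    refine ⟨fun n => ?_, fun n => ?_⟩
    · simp only [Bf]
      exact continuousAt_const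
    · simp only [Bf]
      refine ContinuousAt.div ?_ continuousAt_id hx
      exact (((cont_cf p n).comp (continuous_pow 2)).neg).continuousAt
  | succ j ih =>
    refine ⟨ih.2, fun n => ?_⟩
    simp only [Bf]
    refine ContinuousAt.sub (ContinuousAt.div ?_ ?_ (pow_ne_zero _ hx)) (ih.1 n)
    · refine ContinuousAt.sub (ContinuousAt.mul ?_ (ih.2 n)) (ContinuousAt.mul ?_ (ih.2 (n - 1)))
      · fun_prop
      · fun_prop
    · fun_prop

theorem fin_roots (d : ℕ) (hd : 1 ≤ d) : {x : ℂ | x ^ d = 1}.Finite := by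
  have : {x : ℂ | x ^ d = 1} = ((Polynomial.nthRoots d (1 : ℂ)).toFinset : Set ℂ) := by
    ext x
    simp only [Set.mem_ofPred_eq, mem_coe, Multiset.mem_toFinset]
    rw [Polynomial.mem_nthRoots (by omega)]
  rw [this]
  exact Finset.finite_toSet _

theorem clo (h : S_gen) : S_close := by
  intro x0 hx0 p n hp
  obtain ⟨m, rfl⟩ : ∃ m, p = m + 1 := ⟨p - 1, by omega⟩
  rw [show m + 1 + 1 = m + 2 by ring, show m + 1 - 1 = m by omega]
  set F : ℂ → ℂ := fun x => x * Bf x (m + 1) (m + 2) n - (1 + x ^ (2 * n + 2)) * Bf x (m + 1) (m + 1) n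
    + x ^ (2 * n + 1) * Bf x (m + 1) m n with hF
  have hc : ContinuousAt F x0 := by
    have h1 := (cont_Bf (m + 1) x0 hx0 m).1 n
    have h2 := (cont_Bf (m + 1) x0 hx0 m).2 n
    have h3 := (cont_Bf (m + 1) x0 hx0 (m + 1)).2 n
    refine ContinuousAt.add (ContinuousAt.sub (continuousAt_id.mul h3) (ContinuousAt.mul ?_ h2)) (ContinuousAt.mul ?_ h1)
    · fun_prop
    · fun_prop
  have hfin : (⋃ i ∈ (Finset.Icc 1 (2 * n + 1) : Finset ℕ), {x : ℂ | x ^ (2 * i) = 1}).Finite := by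
    apply Set.Finite.biUnion (Finset.finite_toSet _)
    intro i hi
    rw [Finset.mem_coe, Finset.mem_Icc] at hi
    exact fin_roots _ (by omega)
  have hev : ∀ᶠ x in 𝓝[≠] x0, F x = 0 := by
    have e1 : ∀ᶠ x in 𝓝[≠] x0, x ∉ (⋃ i ∈ (Finset.Icc 1 (2 * n + 1) : Finset ℕ), {x : ℂ | x ^ (2 * i) = 1}) := by
      have := hfin.subset (Set.sdiff_subset (t := {x0}))
      have hcl := this.isClosed
      have hnb : ((⋃ i ∈ (Finset.Icc 1 (2 * n + 1) : Finset ℕ), {x : ℂ | x ^ (2 * i) = 1}) \ {x0})ᶜ ∈ 𝓝 x0 :=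
        hcl.isOpen_compl.mem_nhds (by simp)
      rw [eventually_nhdsWithin_iff]
      filter_upwards [hnb] with x hx hne hmem
      exact hx ⟨hmem, hne⟩
    have e2 : ∀ᶠ x in 𝓝[≠] x0, x ≠ 0 := by
      exact (isOpen_ne.mem_nhds hx0 : {x : ℂ | x ≠ 0} ∈ 𝓝 x0) |> fun h => nhdsWithin_le_nhds h
    filter_upwards [e1, e2] with x h1 h2
    apply gen_clo h x h2 m n
    intro i hi1 hi2 hx1
    apply h1
    rw [Set.mem_iUnion₂]
    exact ⟨i, Finset.mem_Icc.2 ⟨hi1, hi2⟩, hx1⟩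
  have t1 : Tendsto F (𝓝[≠] x0) (𝓝 (F x0)) := hc.tendsto.mono_left nhdsWithin_le_nhds
  have t2 : Tendsto F (𝓝[≠] x0) (𝓝 0) := tendsto_const_nhds.congr' (hev.mono fun x hx => hx.symm)
  exact tendsto_nhds_unique t1 t2

end Pool.Agent.Q225.VC
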