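import Mathlib
import Pool.Agent.Q167.VC.Stm

/-! # Project VC, JOBS CON and DRE -/

set_option autoImplicit false

open Finset

namespace Pool.Agent.Q225.VC

open Pool.Agent.Q167.VC

/-- the rows of the Jacobi matrix, for a vector which is the restriction of a sequence -/
theorem mulVec_seq (p : ℕ) (a w : ℂ) (d : ℕ → ℂ) (i : Fin p) :
    (JM p a w).mulVec (fun j : Fin p => d j) i =
      (if (i : ℕ) = 0 then a * d i else d ((i : ℕ) - 1)) + (if (i : ℕ) + 1 = p then w * d i else d ((i : ℕ) + 1)) := by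
  obtain ⟨i, hi⟩ := i
  show ∑ j : Fin p, JM p a w ⟨i, hi⟩ j * d j = _
  have e1 : ∀ j : Fin p, JM p a w ⟨i, hi⟩ j * d j =
      (if i + 1 = (j : ℕ) then d (i + 1) else 0) + (if (j : ℕ) + 1 = i then d (i - 1) else 0) +
      (if i = (j : ℕ) then (if i = 0 then a * d i else 0) else 0) +
      (if i = (j : ℕ) then (if i + 1 = p then w * d i else 0) else 0) := by
    rintro ⟨j, hj⟩
    unfold JM
    simp only
    by_cases h1 : i + 1 = j
    · subst h1
      have h2 : ¬ (i + 1 + 1 = i) := by omega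
      have h3 : ¬ (i = i + 1) := by omega
      have h4 : ¬ (i = 0 ∧ i + 1 = 0) := by omega
      have h5 : ¬ (i + 1 = p ∧ i + 1 + 1 = p) := by omega
      simp [h2, h3, h4, h5]
    · by_cases h2 : j + 1 = i
      · subst h2
        have h3 : ¬ (j + 1 = j) := by omega
        have h4 : ¬ (j + 1 = 0 ∧ j = 0) := by omega
        have h5 : ¬ (j + 1 + 1 = p ∧ j + 1 = p) := by omega
        simp [h1, h3, h4, h5]
      · by_cases h3 : i = j
        · subst h3
          have e6 : (if (i = 0 ∧ i = 0) then a else 0) = if i = 0 then a else 0 := by simp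
          have e7 : (if (i + 1 = p ∧ i + 1 = p) then w else 0) = if i + 1 = p then w else 0 := by simp
          rw [if_neg (by omega : ¬ (i + 1 = i ∨ i + 1 = i)), e6, e7, if_neg h1, if_neg h2, if_pos rfl, if_pos rfl]
          by_cases h4 : i = 0
          · by_cases h5 : i + 1 = p
            · rw [if_pos h4, if_pos h4, if_pos h5, if_pos h5]
              ring
            · rw [if_pos h4, if_pos h4, if_neg h5, if_neg h5]
              ring
          · by_cases h5 : i + 1 = p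
            · rw [if_neg h4, if_neg h4, if_pos h5, if_pos h5]
              ring
            · rw [if_neg h4, if_neg h4, if_neg h5, if_neg h5]
              ring
        · have h4 : ¬ (i = 0 ∧ j = 0) := by omega
          have h5 : ¬ (i + 1 = p ∧ j + 1 = p) := by omega
          simp [h1, h2, h3, h4, h5]
  simp only [e1]
  rw [sum_add_distrib, sum_add_distrib, sum_add_distrib]
  have s1 : ∑ j : Fin p, (if i + 1 = (j : ℕ) then d (i + 1) else 0) = if i + 1 = p then 0 else d (i + 1) := by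
    rw [Fin.sum_univ_eq_sum_range (fun j => if i + 1 = j then d (i + 1) else 0) p, sum_ite_eq]
    by_cases h : i + 1 = p
    · rw [if_pos h, if_neg (by rw [mem_range]; omega)]
    · rw [if_neg h, if_pos (by rw [mem_range]; omega)]
  have s2 : ∑ j : Fin p, (if (j : ℕ) + 1 = i then d (i - 1) else 0) = if i = 0 then 0 else d (i - 1) := by
    rw [Fin.sum_univ_eq_sum_range (fun j => if j + 1 = i then d (i - 1) else 0) p]
    by_cases h : i = 0
    · rw [if_pos h]
      apply sum_eq_zero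
      intro j _
      rw [if_neg (by omega)]
    · rw [if_neg h, sum_eq_single (i - 1)]
      · rw [if_pos (by omega)]
      · intro j _ hj
        rw [if_neg (by omega)]
      · intro hh
        rw [mem_range] at hh
        omega
  have s3 : ∀ c : ℂ, ∑ j : Fin p, (if i = (j : ℕ) then c else 0) = c := by
    intro c
    rw [Fin.sum_univ_eq_sum_range (fun j => if i = j then c else 0) p, sum_ite_eq, if_pos (mem_range.2 hi)]
  rw [s1, s2, s3, s3]
  by_cases h4 : i = 0
  · by_cases h5 : i + 1 = p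
    · simp only [if_pos h4, if_pos h5]
      ring
    · simp only [if_pos h4, if_neg h5]
      ring
  · by_cases h5 : i + 1 = p
    · simp only [if_neg h4, if_pos h5]
      ring
    · simp only [if_neg h4, if_neg h5]
      ring

theorem ext_seq {p : ℕ} (v : Fin p → ℂ) : ∃ d : ℕ → ℂ, v = fun j : Fin p => d j := by
  refine ⟨fun k => if h : k < p then v ⟨k, h⟩ else 0, ?_⟩
  funext j
  simp

theorem con : S_con := by
  intro p a w ha hw v
  obtain ⟨d, rfl⟩ := ext_seq v
  simp only [mulVec_seq]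
  have h1 : ∀ i : Fin p, ‖(if (i : ℕ) = 0 then a * d i else d ((i : ℕ) - 1)) +
      (if (i : ℕ) + 1 = p then w * d i else d ((i : ℕ) + 1))‖ ^ 2 ≤
      2 * (if (i : ℕ) = 0 then ‖d i‖ ^ 2 else ‖d ((i : ℕ) - 1)‖ ^ 2) +
      2 * (if (i : ℕ) + 1 = p then ‖d i‖ ^ 2 else ‖d ((i : ℕ) + 1)‖ ^ 2) := by
    intro i
    have t1 : ‖(if (i : ℕ) = 0 then a * d i else d ((i : ℕ) - 1))‖ ^ 2 ≤
        if (i : ℕ) = 0 then ‖d i‖ ^ 2 else ‖d ((i : ℕ) - 1)‖ ^ 2 := by
      split_ifs
      · apply pow_le_pow_left₀ (norm_nonneg _)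
        rw [norm_mul]
        exact mul_le_of_le_one_left (norm_nonneg _) ha
      · exact le_rfl
    have t2 : ‖(if (i : ℕ) + 1 = p then w * d i else d ((i : ℕ) + 1))‖ ^ 2 ≤
        if (i : ℕ) + 1 = p then ‖d i‖ ^ 2 else ‖d ((i : ℕ) + 1)‖ ^ 2 := by
      split_ifs
      · apply pow_le_pow_left₀ (norm_nonneg _)
        rw [norm_mul]
        exact mul_le_of_le_one_left (norm_nonneg _) hw
      · exact le_rfl
    have t3 : ∀ r l : ℂ, ‖r + l‖ ^ 2 ≤ 2 * ‖r‖ ^ 2 + 2 * ‖l‖ ^ 2 := by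
      intro r l
      have := norm_add_le r l
      have h0 := norm_nonneg (r + l)
      nlinarith [sq_nonneg (‖r‖ - ‖l‖)]
    exact (t3 _ _).trans (by linarith)
  refine (sum_le_sum fun i _ => h1 i).trans ?_
  rw [sum_add_distrib, ← mul_sum, ← mul_sum]
  rw [Fin.sum_univ_eq_sum_range (fun i => if i = 0 then ‖d i‖ ^ 2 else ‖d (i - 1)‖ ^ 2) p,
    Fin.sum_univ_eq_sum_range (fun i => if i + 1 = p then ‖d i‖ ^ 2 else ‖d (i + 1)‖ ^ 2) p,
    Fin.sum_univ_eq_sum_range (fun i => ‖d i‖ ^ 2) p]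
  rcases p with _ | q
  · simp
  · have e1 : ∑ i ∈ range (q + 1), (if i = 0 then ‖d i‖ ^ 2 else ‖d (i - 1)‖ ^ 2) =
        ∑ i ∈ range q, ‖d i‖ ^ 2 + ‖d 0‖ ^ 2 := by
      rw [sum_range_succ']
      simp
    have e2 : ∑ i ∈ range (q + 1), (if i + 1 = q + 1 then ‖d i‖ ^ 2 else ‖d (i + 1)‖ ^ 2) =
        ∑ i ∈ range q, ‖d (i + 1)‖ ^ 2 + ‖d q‖ ^ 2 := by
      rw [sum_range_succ, if_pos rfl]
      congr 1
      apply sum_congr rfl
      intro i hi
      rw [mem_range] at hi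
      rw [if_neg (by omega)]
    have e3 : ∑ i ∈ range (q + 1), ‖d i‖ ^ 2 = ∑ i ∈ range q, ‖d (i + 1)‖ ^ 2 + ‖d 0‖ ^ 2 := sum_range_succ' _ _
    have e4 : ∑ i ∈ range (q + 1), ‖d i‖ ^ 2 = ∑ i ∈ range q, ‖d i‖ ^ 2 + ‖d q‖ ^ 2 := sum_range_succ _ _
    rw [e1, e2]
    linarith

theorem dre (h : S_close) : S_Drec := by
  intro x hx p n hp hn j
  set d : ℕ → ℂ := fun k => Bf x p (k + 1) n - x⁻¹ * Bf x p k n with hd
  have e0 : DV x p n = fun j : Fin p => d j := rfl
  have hX : x ^ (2 * n + 1) ≠ 0 := pow_ne_zero _ hx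
  -- the recursion
  have hrec : ∀ k : ℕ, (1 - x ^ (2 * n)) * Bf x p (k + 1) (n - 1) =
      (1 + x ^ (4 * n + 2)) * Bf x p (k + 1) n - x ^ (2 * n + 1) * (Bf x p (k + 2) n + Bf x p k n) := by
    intro k
    have : Bf x p (k + 2) n = ((1 + x ^ (4 * n + 2)) * Bf x p (k + 1) n
      - (1 - x ^ (2 * n)) * Bf x p (k + 1) (n - 1)) / x ^ (2 * n + 1) - Bf x p k n := rfl
    rw [this]
    field_simp
    ring
  have hXX : x ^ (2 * n + 1) * (x ^ (2 * n + 1) + (x⁻¹) ^ (2 * n + 1)) = 1 + x ^ (4 * n + 2) := by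
    rw [mul_add, ← pow_add, ← mul_pow, mul_inv_cancel₀ hx, one_pow]
    ring
  have last : (j : ℕ) + 1 = p → d ((j : ℕ) + 1) = x ^ (2 * n + 1) * d j := by
    intro hj
    have h1 := h x hx p n hp
    have h2 : p - 1 = (j : ℕ) := by omega
    have h3 : p + 1 = (j : ℕ) + 1 + 1 := by omega
    have h4 : Bf x p p n = Bf x p ((j : ℕ) + 1) n := by rw [hj]
    have h5 : x ^ (2 * n + 2) = x ^ (2 * n + 1) * x := by ring
    rw [h2, h3, h4, h5] at h1
    show Bf x p ((j : ℕ) + 1 + 1) n - x⁻¹ * Bf x p ((j : ℕ) + 1) n =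
      x ^ (2 * n + 1) * (Bf x p ((j : ℕ) + 1) n - x⁻¹ * Bf x p (j : ℕ) n)
    have hxi : x * x⁻¹ = 1 := mul_inv_cancel₀ hx
    apply mul_left_cancel₀ hx
    linear_combination h1 - (Bf x p ((j : ℕ) + 1) n - x ^ (2 * n + 1) * Bf x p (j : ℕ) n) * hxi
  have second : (if (j : ℕ) + 1 = p then x ^ (2 * n + 1) * d j else d ((j : ℕ) + 1)) = d ((j : ℕ) + 1) := by
    split_ifs with hj
    · exact (last hj).symm
    · rfl
  rw [e0, mulVec_seq, second]
  show (1 - x ^ (2 * n)) * (Bf x p ((j : ℕ) + 1) (n - 1) - x⁻¹ * Bf x p (j : ℕ) (n - 1)) = _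
  rw [mul_sub (x ^ (2 * n + 1)), ← mul_assoc, hXX]
  beta_reduce
  rcases Nat.eq_zero_or_pos (j : ℕ) with hj | hj
  · rw [hj, if_pos rfl]
    have hB0 : ∀ m, Bf x p 0 m = 0 := fun m => rfl
    rw [hB0, mul_zero, sub_zero, zero_add, hrec 0]
    simp only [hd, hj, hB0]
    ring
  · obtain ⟨k, hk⟩ : ∃ k, (j : ℕ) = k + 1 := ⟨(j : ℕ) - 1, by omega⟩
    rw [hk, if_neg (by omega), show k + 1 - 1 = k by omega, mul_sub, hrec (k + 1)]
    have h1 := hrec k
    have h2 : (1 - x ^ (2 * n)) * (x⁻¹ * Bf x p (k + 1) (n - 1)) =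
      x⁻¹ * ((1 - x ^ (2 * n)) * Bf x p (k + 1) (n - 1)) := by ring
    rw [h2, h1]
    simp only [hd, hk]
    ring

end Pool.Agent.Q225.VC
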