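import Mathlib
import Pool.Agent.Q225.VC.Clo

/-! # Project VC, JOB LOW -/

set_option autoImplicit false

open Finset Filter Topology

namespace Pool.Agent.Q225.VC

open Pool.Agent.Q167.VC

theorem rt_pow (N k : ℕ) : rt N ^ k = Complex.exp (((Real.pi * k / N : ℝ) : ℂ) * Complex.I) := by
  unfold rt
  rw [← Complex.exp_nat_mul]
  congr 1
  push_cast
  ring

theorem norm_rt (N : ℕ) : ‖rt N‖ = 1 := by
  have := rt_pow N 1
  rw [pow_one] at this
  rw [this, Complex.norm_exp_ofReal_mul_I]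

theorem norm_one_sub (N i : ℕ) (hN : 0 < N) (hi : i ≤ N) :
    ‖1 - (rt N ^ 2) ^ i‖ = 2 * Real.sin (Real.pi * i / N) := by
  rw [← pow_mul, rt_pow, norm_sub_rev, mul_comm _ Complex.I, Complex.norm_exp_I_mul_ofReal_sub_one]
  have hN' : (0 : ℝ) < N := by exact_mod_cast hN
  have e : Real.pi * ((2 * i : ℕ) : ℝ) / N / 2 = Real.pi * i / N := by
    push_cast
    ring
  rw [e, Real.norm_eq_abs, abs_of_nonneg]
  apply mul_nonneg (by norm_num)
  apply Real.sin_nonneg_of_nonneg_of_le_pi
  · positivity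
  · rw [div_le_iff₀ hN']
    exact mul_le_mul_of_nonneg_left (by exact_mod_cast hi) Real.pi_pos.le

/-- `sin (π a / N) ≤ sin (π b / N)` for `a ≤ b` and `a + b ≤ N` -/
theorem sin_mono (N a b : ℕ) (hN : 0 < N) (hab : a ≤ b) (hs : a + b ≤ N) :
    Real.sin (Real.pi * a / N) ≤ Real.sin (Real.pi * b / N) := by
  have hN' : (0 : ℝ) < N := by exact_mod_cast hN
  have hpi := Real.pi_pos
  have hs' : (a : ℝ) + b ≤ N := by exact_mod_cast hs
  have hab' : (a : ℝ) ≤ b := by exact_mod_cast hab
  have ha0 : (0 : ℝ) ≤ a := Nat.cast_nonneg a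
  rcases le_total (2 * b) N with h | h
  · have h' : 2 * (b : ℝ) ≤ N := by exact_mod_cast h
    apply Real.sin_le_sin_of_le_of_le_pi_div_two
    · have : 0 ≤ Real.pi * a / N := by positivity
      linarith
    · rw [div_le_iff₀ hN']
      nlinarith
    · apply div_le_div_of_nonneg_right _ hN'.le
      nlinarith
  · have h' : (N : ℝ) ≤ 2 * b := by exact_mod_cast h
    rw [← Real.sin_pi_sub (Real.pi * b / N)]
    have e : Real.pi - Real.pi * b / N = Real.pi * (N - b) / N := by
      field_simp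
    rw [e]
    apply Real.sin_le_sin_of_le_of_le_pi_div_two
    · have : 0 ≤ Real.pi * a / N := by positivity
      linarith
    · rw [div_le_iff₀ hN']
      nlinarith
    · apply div_le_div_of_nonneg_right _ hN'.le
      nlinarith

theorem sin_low (N b : ℕ) (hN : 2 ≤ N) (hb : 1 ≤ b) (hs : b + 1 ≤ N) :
    2 / (N : ℝ) ≤ Real.sin (Real.pi * b / N) := by
  refine le_trans ?_ (sin_mono N 1 b (by omega) hb (by omega))
  have hN' : (2 : ℝ) ≤ N := by exact_mod_cast hN
  have h1 := Real.mul_le_sin (x := Real.pi * (1 : ℕ) / N) (by positivity) (by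
    rw [Nat.cast_one, mul_one]
    apply div_le_div_of_nonneg_left Real.pi_pos.le (by norm_num) hN')
  refine le_trans (le_of_eq ?_) h1
  have := Real.pi_pos.ne'
  push_cast
  field_simp

theorem low (h : S_gen) : S_low := by
  intro p N n hN
  have hN0 : 0 < N := by omega
  have hN' : (0 : ℝ) < N := by exact_mod_cast hN0
  have hx1 : ‖rt N‖ = 1 := norm_rt N
  have hx0 : rt N ≠ 0 := by
    rw [← norm_ne_zero_iff, hx1]
    norm_num
  set s : ℕ → ℝ := fun i => 2 * Real.sin (Real.pi * i / N) with hs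
  have hsv : ∀ i, i ≤ N → ‖1 - (rt N ^ 2) ^ i‖ = s i := fun i hi => norm_one_sub N i hN0 hi
  have hslow : ∀ i, 1 ≤ i → i + 1 ≤ N → 4 / (N : ℝ) ≤ s i := by
    intro i h1 h2
    have := sin_low N i (by omega) h1 h2
    have e : 4 / (N : ℝ) = 2 * (2 / (N : ℝ)) := by ring
    rw [e]
    exact mul_le_mul_of_nonneg_left this (by norm_num)
  have hspos : ∀ i, 1 ≤ i → i + 1 ≤ N → 0 < s i := fun i h1 h2 =>
    lt_of_lt_of_le (by positivity) (hslow i h1 h2)
  have hsmono : ∀ a b, a ≤ b → a + b ≤ N → s a ≤ s b := fun a b h1 h2 =>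
    mul_le_mul_of_nonneg_left (sin_mono N a b hN0 h1 h2) (by norm_num)
  have hg : ∀ i : ℕ, 1 ≤ i → i ≤ 2 * n + 1 → rt N ^ (2 * i) ≠ 1 := by
    intro i h1 h2 h3
    have := hsv i (by omega)
    rw [← pow_mul, h3, sub_self, norm_zero] at this
    have h4 := hspos i h1 (by omega)
    linarith
  set P : ℕ → ℝ := fun m => ‖po (rt N ^ 2) m‖ with hP
  have hPs : ∀ m, m + 1 ≤ N → P (m + 1) = P m * s (m + 1) := by
    intro m hm
    simp only [hP]
    rw [po_succ, norm_mul, hsv (m + 1) hm]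
  have hPpos : ∀ m, m ≤ 2 * n + 1 → 0 < P m := fun m hm => norm_pos_iff.2 (po_ne (rt N) n hg m hm)
  have hR : ∀ k, k ≤ n → P n ^ 2 ≤ P (n - k) * P (n + k) := by
    intro k
    induction k with
    | zero =>
      intro _
      rw [Nat.sub_zero, Nat.add_zero, sq]
    | succ k ih =>
      intro hk
      refine (ih (by omega)).trans ?_
      have e1 : P (n - k) = P (n - (k + 1)) * s (n - k) := by
        have := hPs (n - (k + 1)) (by omega)
        rwa [show n - (k + 1) + 1 = n - k by omega] at this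
      have e2 : P (n + (k + 1)) = P (n + k) * s (n + k + 1) := hPs (n + k) (by omega)
      rw [e1, e2]
      have h1 := hsmono (n - k) (n + k + 1) (by omega) (by omega)
      have h2 := hPpos (n - (k + 1)) (by omega)
      have h3 := hPpos (n + k) (by omega)
      have h4 : 0 < P (n - (k + 1)) * P (n + k) := mul_pos h2 h3
      nlinarith
  have hR2 : ∀ k, k ≤ n → P n ^ 2 * (4 / N) ≤ P (n - k) * P (n + k + 1) := by
    intro k hk
    rw [hPs (n + k) (by omega), ← mul_assoc]
    apply mul_le_mul (hR k hk) (hslow _ (by omega) (by omega)) (by positivity)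
    exact mul_nonneg (hPpos _ (by omega)).le (hPpos _ (by omega)).le
  have hcf : ‖cf (rt N ^ 2) p n‖ = ‖Bf (rt N) p 1 n‖ := by
    simp only [Bf]
    rw [norm_div, norm_neg, hx1, div_one]
  have hterm : ‖Bf (rt N) p 1 n‖ ≤ ∑ k ∈ range (n + 1), 2 * (P n / (P (n - k) * P (n + k + 1))) := by
    rw [h (rt N) hx0 n hg]
    refine (norm_sum_le _ _).trans (sum_le_sum fun k _ => ?_)
    rw [norm_mul, norm_mul, norm_mul, norm_pow, norm_neg, norm_one, one_pow, norm_pow, hx1, one_pow, one_mul, one_mul]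
    rw [norm_div, norm_mul]
    apply mul_le_mul_of_nonneg_right _ (by positivity)
    refine (norm_sub_le _ _).trans ?_
    rw [norm_pow, norm_pow, norm_inv, hx1, inv_one, one_pow]
    norm_num
  rw [hcf]
  have hfin : ‖Bf (rt N) p 1 n‖ * P n ≤ ∑ k ∈ range (n + 1), (N : ℝ) / 2 := by
    refine (mul_le_mul_of_nonneg_right hterm (hPpos n (by omega)).le).trans ?_
    rw [sum_mul]
    apply sum_le_sum
    intro k hk
    rw [mem_range] at hk
    have h1 := hR2 k (by omega)
    have h2 : 0 < P (n - k) * P (n + k + 1) := mul_pos (hPpos _ (by omega)) (hPpos _ (by omega))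
    have h3 : 2 * (P n / (P (n - k) * P (n + k + 1))) * P n = 2 * P n ^ 2 / (P (n - k) * P (n + k + 1)) := by
      ring
    rw [h3, div_le_iff₀ h2]
    have h4 : 2 * P n ^ 2 = (N : ℝ) / 2 * (P n ^ 2 * (4 / N)) := by
      field_simp
      ring
    rw [h4]
    exact mul_le_mul_of_nonneg_left h1 (by positivity)
  refine hfin.trans ?_
  rw [sum_const, card_range, nsmul_eq_mul]
  have h1 : ((n + 1 : ℕ) : ℝ) ≤ N := by exact_mod_cast (by omega : n + 1 ≤ N)
  nlinarith

end Pool.Agent.Q225.VC
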